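import Pool.Agent.J4H20.TP.Stm

set_option autoImplicit false

/-! # Project TP, (R1P): the `p`-th root with a parameter -/

namespace Pool.Agent.J4H19.TP

open Polynomial Pool.Agent.J4H20.TP

/-- the binomial theorem up to the linear term, with a degree bound for the rest -/
theorem expand {R : Type} [CommRing R] (G u : R[X]) (e d : ℕ) (hG : G.natDegree ≤ e)
    (hu : u.natDegree ≤ d) (hd : d ≤ e) (n : ℕ) :
    ∃ Q : R[X], (G + u) ^ (n + 2) = G ^ (n + 2) + ((n + 2 : ℕ) : R[X]) * u * G ^ (n + 1) + Q ∧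
      Q.natDegree ≤ 2 * d + n * e := by
  induction n with
  | zero =>
    refine ⟨u ^ 2, by push_cast; ring, ?_⟩
    have h := natDegree_pow_le_of_le 2 hu
    omega
  | succ n ih =>
    obtain ⟨Q, hQ, hQd⟩ := ih
    refine ⟨((n + 2 : ℕ) : R[X]) * u ^ 2 * G ^ (n + 1) + (G + u) * Q, ?_, ?_⟩
    · rw [pow_succ (G + u) (n + 2), hQ]
      push_cast
      ring
    · refine natDegree_add_le_of_degree_le ?_ ?_
      · have h1 := natDegree_pow_le_of_le 2 hu
        have h2 := natDegree_pow_le_of_le (n + 1) hG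
        have h3 : (((n + 2 : ℕ) : R[X]) * u ^ 2).natDegree ≤ 0 + 2 * d :=
          natDegree_mul_le_of_le (natDegree_natCast _).le h1
        refine (natDegree_mul_le_of_le h3 h2).trans ?_
        omega
      · have h1 : (G + u).natDegree ≤ e := natDegree_add_le_of_degree_le hG (hu.trans hd)
        refine (natDegree_mul_le_of_le h1 hQd).trans ?_
        have : (n + 1) * e = n * e + e := by ring
        omega

/-- every monic polynomial of degree `p e` is a `p`-th power plus a remainder of small degree -/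
theorem root_step {R : Type} [CommRing R] [Nontrivial R] (p : ℕ) (t : R) (ht : ((p + 2 : ℕ) : R) * t = 1)
    (n : ℕ) (F : R[X]) (hF : F.Monic) (hd : F.natDegree = (p + 2) * n) (m : ℕ) (hm : m ≤ n) :
    ∃ G : R[X], G.Monic ∧ G.natDegree = n ∧
      ∀ k, (p + 2) * n - m ≤ k → (F - G ^ (p + 2)).coeff k = 0 := by
  have hmul : (p + 2) * n = (p + 1) * n + n := by ring
  induction m with
  | zero =>
    refine ⟨X ^ n, monic_X_pow n, natDegree_X_pow n, fun k hk => ?_⟩
    rw [Nat.sub_zero] at hk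
    rw [coeff_sub, ← pow_mul, mul_comm n (p + 2), coeff_X_pow]
    rcases hk.eq_or_lt with h | h
    · rw [← h, if_pos rfl, ← hd]
      have : F.coeff F.natDegree = 1 := hF
      rw [this, sub_self]
    · rw [if_neg (by omega), coeff_eq_zero_of_natDegree_lt (by omega), sub_zero]
  | succ m ih =>
    obtain ⟨G, hG, hGn, hc⟩ := ih (by omega)
    obtain ⟨e, he⟩ : ∃ e, n = m + 1 + e := ⟨n - (m + 1), by omega⟩
    set c := (F - G ^ (p + 2)).coeff ((p + 1) * n + e) with hcd
    have hu : (C (t * c) * X ^ e : R[X]).natDegree ≤ e := natDegree_C_mul_X_pow_le _ _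
    have hdeg : (C (t * c) * X ^ e : R[X]).natDegree < G.natDegree := by omega
    obtain ⟨Q, hQ, hQd⟩ := expand G (C (t * c) * X ^ e) n e hGn.le hu (by omega) p
    refine ⟨G + C (t * c) * X ^ e, hG.add_of_left (degree_lt_degree hdeg), ?_, fun k hk => ?_⟩
    · rw [natDegree_add_eq_left_of_natDegree_lt hdeg, hGn]
    · have h1 : F - (G + C (t * c) * X ^ e) ^ (p + 2) = (F - G ^ (p + 2))
          - C c * (G ^ (p + 1) * X ^ e) - Q := by
        have h2 : (C c : R[X]) = C (((p + 2 : ℕ) : R) * t) * C c := by rw [ht, C_1, one_mul]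
        rw [h2, hQ]
        simp only [C_mul, map_natCast]
        ring
      have hGp : (G ^ (p + 1)).natDegree = (p + 1) * n := by rw [hG.natDegree_pow, hGn]
      have hGm : (G ^ (p + 1)).Monic := hG.pow _
      have hpn : (p + 1) * n = p * n + n := by ring
      rw [h1, coeff_sub, coeff_sub, coeff_C_mul, coeff_mul_X_pow', if_pos (by omega : e ≤ k),
        coeff_eq_zero_of_natDegree_lt (by omega : Q.natDegree < k), sub_zero]
      rcases Nat.lt_or_ge k ((p + 2) * n - m) with h | h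
      · have h3 : k = (p + 1) * n + e := by omega
        have h4 : (G ^ (p + 1)).coeff (k - e) = 1 := by
          rw [h3, Nat.add_sub_cancel, ← hGp]
          exact hGm
        rw [h4, mul_one, h3, ← hcd, sub_self]
      · rw [hc k h, coeff_eq_zero_of_natDegree_lt (by omega : (G ^ (p + 1)).natDegree < k - e),
          mul_zero, sub_zero]

theorem sum_coeff (n : ℕ) (c : ℕ → ℚ) (k : ℕ) :
    (∑ j : Fin n, C (c j) * X ^ (j : ℕ) : ℚ[X]).coeff k = if k < n then c k else 0 := by
  rw [Fin.sum_univ_eq_sum_range (fun j => (C (c j) * X ^ j : ℚ[X])) n, finsetSum_coeff]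
  simp only [coeff_C_mul, coeff_X_pow, mul_ite, mul_one, mul_zero]
  rw [Finset.sum_ite_eq (Finset.range n) k]
  simp only [Finset.mem_range]

/-- `A ^ p = G ^ p + r` with `r` of small degree only for `A = G` -/
theorem root_unique (p n : ℕ) (A G r : ℚ[X]) (hA : A.Monic) (hAn : A.natDegree = n) (hG : G.Monic)
    (hGn : G.natDegree = n) (hr : ∀ k, (p + 1) * n ≤ k → r.coeff k = 0)
    (h : A ^ (p + 2) = G ^ (p + 2) + r) : A = G := by
  by_contra hne
  set S : ℚ[X] := ∑ i ∈ Finset.range (p + 2), A ^ i * G ^ (p + 2 - 1 - i) with hS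
  have h1 : S * (A - G) = r := by
    rw [hS, (Commute.all A G).geom_sum₂_mul]
    linear_combination h
  have h2 : A - G ≠ 0 := sub_ne_zero.2 hne
  have h3 : S.coeff ((p + 1) * n) = (p + 2 : ℕ) := by
    rw [hS, finsetSum_coeff]
    have : ∀ i ∈ Finset.range (p + 2), (A ^ i * G ^ (p + 2 - 1 - i)).coeff ((p + 1) * n) = 1 := by
      intro i hi
      rw [Finset.mem_range] at hi
      have hm : (A ^ i * G ^ (p + 2 - 1 - i)).Monic := (hA.pow _).mul (hG.pow _)
      have hn : (A ^ i * G ^ (p + 2 - 1 - i)).natDegree = (p + 1) * n := by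
        rw [(hA.pow _).natDegree_mul (hG.pow _), hA.natDegree_pow, hG.natDegree_pow, hAn, hGn,
          ← add_mul]
        congr 1
        omega
      rw [← hn]
      exact hm
    rw [Finset.sum_congr rfl this]
    simp
  have h4 : S ≠ 0 := fun h => by
    rw [h, coeff_zero] at h3
    have : ((p + 2 : ℕ) : ℚ) ≠ 0 := by positivity
    exact this h3.symm
  have h5 : (p + 1) * n ≤ S.natDegree := le_natDegree_of_ne_zero (by rw [h3]; positivity)
  have h6 : r ≠ 0 := by
    rw [← h1]
    exact mul_ne_zero h4 h2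
  have h7 : r.natDegree = S.natDegree + (A - G).natDegree := by rw [← h1, natDegree_mul h4 h2]
  exact h6 (leadingCoeff_eq_zero.1 (hr _ (by omega)))

/-- (R1P) -/
theorem t_R1P : S_R1P := by
  intro p' n a hp'
  obtain ⟨p, rfl⟩ : ∃ p, p' = p + 2 := ⟨p' - 2, by omega⟩
  have hsub : p + 2 - 1 = p + 1 := by omega
  set F : ℚ[X][X] := ∏ j : Fin (p + 2), ∏ i, (X - C (C (a i : ℚ) + C ((j : ℕ) : ℚ) * X)) with hF
  have hmi : ∀ j : Fin (p + 2), (∏ i, (X - C (C (a i : ℚ) + C ((j : ℕ) : ℚ) * X)) : ℚ[X][X]).Monic :=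
    fun j => monic_prod_of_monic _ _ fun i _ => monic_X_sub_C _
  have hm : F.Monic := monic_prod_of_monic _ _ fun j _ => hmi j
  have hd : F.natDegree = (p + 2) * n := by
    rw [hF, natDegree_prod_of_monic _ _ fun j _ => hmi j]
    have : ∀ j : Fin (p + 2),
        (∏ i, (X - C (C (a i : ℚ) + C ((j : ℕ) : ℚ) * X)) : ℚ[X][X]).natDegree = n := by
      intro j
      rw [natDegree_prod_of_monic _ _ fun i _ => monic_X_sub_C _]
      simp only [natDegree_X_sub_C]
      simp
    rw [Finset.sum_congr rfl fun j _ => this j]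
    simp
  have ht : ((p + 2 : ℕ) : ℚ[X]) * C (1 / ((p + 2 : ℕ) : ℚ)) = 1 := by
    have h0 : ((p + 2 : ℕ) : ℚ) ≠ 0 := by positivity
    have : ((p + 2 : ℕ) : ℚ[X]) = C ((p + 2 : ℕ) : ℚ) := (map_natCast C _).symm
    rw [this, ← C_mul, mul_one_div_cancel h0, C_1]
  obtain ⟨G, hG, hGn, hc⟩ := root_step p (C (1 / ((p + 2 : ℕ) : ℚ))) ht n F hm hd n le_rfl
  have hc' : ∀ k, (p + 1) * n ≤ k → (F - G ^ (p + 2)).coeff k = 0 := fun k hk => hc k (by
    have : (p + 2) * n = (p + 1) * n + n := by ring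
    omega)
  have hmapF : ∀ ε : ℚ, F.map (evalRingHom ε)
      = ∏ j : Fin (p + 2), ∏ i, (X - C ((a i : ℚ) + (j : ℕ) * ε)) := by
    intro ε
    rw [hF, Polynomial.map_prod]
    refine Finset.prod_congr rfl fun j _ => ?_
    rw [Polynomial.map_prod]
    refine Finset.prod_congr rfl fun i _ => ?_
    rw [Polynomial.map_sub, map_X, map_C]
    congr 2
    simp
  have hmapG : ∀ ε : ℚ, G.map (evalRingHom ε)
      = X ^ n + ∑ j : Fin n, C ((G.coeff (j : ℕ)).eval ε) * X ^ (j : ℕ) := by
    intro ε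
    ext k
    rw [coeff_map, coeff_add, coeff_X_pow, sum_coeff n (fun j => (G.coeff j).eval ε), coe_evalRingHom]
    rcases Nat.lt_trichotomy k n with h | h | h
    · rw [if_neg (by omega), if_pos h, zero_add]
    · rw [if_pos h, if_neg (by omega), add_zero, h, ← hGn]
      have : G.coeff G.natDegree = 1 := hG
      rw [this, eval_one]
    · rw [if_neg (by omega), if_neg (by omega), coeff_eq_zero_of_natDegree_lt (by omega), eval_zero,
        add_zero]
  have hmapR : ∀ ε : ℚ, (F - G ^ (p + 2)).map (evalRingHom ε)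
      = ∑ j : Fin ((p + 1) * n), C (((F - G ^ (p + 2)).coeff (j : ℕ)).eval ε) * X ^ (j : ℕ) := by
    intro ε
    ext k
    rw [coeff_map, sum_coeff ((p + 1) * n) (fun j => ((F - G ^ (p + 2)).coeff j).eval ε),
      coe_evalRingHom]
    split_ifs with h
    · rfl
    · rw [hc' k (by omega), eval_zero]
  have hall : ∀ ε : ℚ, (∏ j : Fin (p + 2), ∏ i, (X - C ((a i : ℚ) + (j : ℕ) * ε)))
      = (X ^ n + ∑ j : Fin n, C ((G.coeff (j : ℕ)).eval ε) * X ^ (j : ℕ)) ^ (p + 2)
        + ∑ j : Fin ((p + 1) * n),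
            C (((F - G ^ (p + 2)).coeff (j : ℕ)).eval ε) * X ^ (j : ℕ) := by
    intro ε
    rw [← hmapF, ← hmapG, ← hmapR, ← Polynomial.map_pow, ← Polynomial.map_add]
    congr 1
    ring
  set A : ℚ[X] := ∏ i, (X - C (a i : ℚ)) with hA
  have hAm : A.Monic := monic_prod_of_monic _ _ fun i _ => monic_X_sub_C _
  have hAn : A.natDegree = n := by
    rw [hA, natDegree_prod_of_monic _ _ fun i _ => monic_X_sub_C _]
    simp only [natDegree_X_sub_C]
    simp
  have h0 := hall 0
  have e1 : (∏ j : Fin (p + 2), ∏ i, (X - C ((a i : ℚ) + (j : ℕ) * 0)) : ℚ[X]) = A ^ (p + 2) := by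
    have : ∀ j : Fin (p + 2), (∏ i, (X - C ((a i : ℚ) + (j : ℕ) * 0)) : ℚ[X]) = A := fun j =>
      Finset.prod_congr rfl fun i _ => by rw [mul_zero, add_zero]
    rw [Finset.prod_congr rfl fun j _ => this j]
    simp
  rw [e1, ← hmapG, ← hmapR] at h0
  have hr0d : ∀ k, (p + 1) * n ≤ k → ((F - G ^ (p + 2)).map (evalRingHom (0 : ℚ))).coeff k = 0 := by
    intro k hk
    rw [coeff_map, hc' k hk, map_zero]
  have hAG : A = G.map (evalRingHom (0 : ℚ)) :=
    root_unique p n A _ _ hAm hAn (hG.map _) (by rw [hG.natDegree_map, hGn]) hr0d h0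
  have hr00 : (F - G ^ (p + 2)).map (evalRingHom (0 : ℚ)) = 0 := by
    rw [← hAG] at h0
    linear_combination -h0
  refine ⟨fun j => G.coeff (j : ℕ), fun j => (F - G ^ (p + 2)).coeff (j : ℕ), hall, ?_, ?_⟩
  · intro j
    rw [hAG, coeff_map, coe_evalRingHom]
  · intro j
    have h1 : ((F - G ^ (p + 2)).map (evalRingHom (0 : ℚ))).coeff (j : ℕ) = 0 := by
      rw [hr00, coeff_zero]
    rw [coeff_map, coe_evalRingHom] at h1
    exact h1

end Pool.Agent.J4H19.TP
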